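import Pool.Agent.helper52.FS.SpecE

/-!
# MP_07c750 (quantum unique ergodicity, weight 10), PROJECT FS, third part: FINITELY MANY OPEN SETS AT ONCE, rows `fs:XXX`

THEOREM (`FRM_stmt`, `FRN_stmt`): for finitely many nonempty open sets `O_k` of `X = Γ \ SL(2, ℝ)` there is `c > 0` such that for EVERY quantum limit at least half of the mass lies on orbits which spend at least the proportion `c` of the time in EACH of the `O_k` (`c` depends on `Γ` and the `O_k` only).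
With a finite cover: for every `r > 0` there is `ε(r) > 0` such that at least half of the mass of every quantum limit lies on orbits which spend at least the proportion `ε(r)` of the time in EVERY ball of radius `r` of `X`.
(FRQ of SpecE is the case of one set. For several sets the pairs (future: `O_k`, past: `O_l`) have to be treated: LFH.)
Rules as in SpecD: `import Pool.Agent.helper84.FS.SpecF`.
-/

open scoped MatrixGroups ContDiff Topology UpperHalfPlane ComplexConjugate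
open UpperHalfPlane MeasureTheory Filter Set

set_option autoImplicit false

namespace Pool.Agent.FS

open Pool.Agent.RS
open Pool.Agent.MS (bq BB BA SF pf)
open Pool.Agent.EN (XG MG mkX mkM fl pr)

noncomputable section

/-- **Row LFH** (the leaf condition for a pair of open sets; medium; from FWG, BWG, FUG, CNT, RS.GLC: the proof of LFG, with FWG for `O`, `χ` and BWG for `O'`, `χ'`; LFG is the case `O = O'`, `χ = χ'`). -/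
def LFH_stmt : Prop := ∀ (Γ : Subgroup SL(2, ℝ)) (O O' : Set (XG Γ)) (c0 : ℝ), QU.SurfaceGroup Γ → IsOpen O → O.Nonempty → IsOpen O' → O'.Nonempty → 0 < c0 → ∃ ε0 : ℝ, 0 < ε0 ∧ ε0 < 1 / 4 ∧ ∀ (ε κ0 Q : ℝ), 0 < ε → ε ≤ ε0 → 0 < κ0 → κ0 ≤ 1 → 0 < Q → ∃ n0 : ℕ,
  ∀ (n : ℕ) (χ χa χn χl χ' χa' χn' χl' : SL(2, ℝ) → ℝ) (θ : ℝ → ℝ) (εc : ℝ), n0 ≤ n → VP Γ O c0 χ → VP Γ O' c0 χ' → SF Γ χ χa χn χl → SF Γ χ' χa' χn' χl' → (∀ g, 0 ≤ χ g ∧ χ g ≤ 1) → (∀ g, 0 ≤ χ' g ∧ χ' g ≤ 1) → (∀ s, s ≤ 1 - 2 * ε → θ s = 0) → εc = κ0 * Real.exp (-n) →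
    IR.LFC (fun g => θ ((∑ i ∈ Finset.range n, χ (g * aM i)) / n)) (fun g => θ ((∑ i ∈ Finset.range n, χ' (g * aM i)) / n)) n εc (εc / 100) Q

/-- **Row LFU** (unions; short; pure). `{v | Ψ ≠ 0} ⊆ ∪_k {v | Ψs k ≠ 0}`, `J = ⊔ J_l` (first witness `l`), `|Σ_J|² ≤ m Σ_l |Σ_(J_l)|²`, `∫_Y ≤ Σ_k ∫_(Y_k)`. -/
def LFU_stmt : Prop := ∀ (m : ℕ) (Ψ Ψ' : SL(2, ℝ) → ℝ) (Ψs Ψs' : ℕ → SL(2, ℝ) → ℝ) (n εc l0 q : ℝ), 0 ≤ q → (∀ g, Ψ g ≠ 0 → ∃ k < m, Ψs k g ≠ 0) → (∀ g, Ψ' g ≠ 0 → ∃ k < m, Ψs' k g ≠ 0) →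
  (∀ k < m, ∀ l < m, IR.LFC (Ψs k) (Ψs' l) n εc l0 q) → IR.LFC Ψ Ψ' n εc l0 ((m : ℝ) ^ 2 * q)

/-- **Row UNF** (`1 - Π (1 - Ψ_k)`; short; from IR.SFP or directly). -/
def UNF_stmt : Prop := ∀ (Γ : Subgroup SL(2, ℝ)) (m : ℕ) (B1 B2 : ℝ) (Ψs Ψas Ψns Ψls : ℕ → SL(2, ℝ) → ℝ), 0 ≤ B1 → 0 ≤ B2 → (∀ k < m, SF Γ (Ψs k) (Ψas k) (Ψns k) (Ψls k)) → (∀ k < m, ∀ g, 0 ≤ Ψs k g ∧ Ψs k g ≤ 1) →
  (∀ k < m, ∀ g, |Ψns k g| ≤ B1) → (∀ k < m, ∀ g, |Ψls k g| ≤ B2) →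
    ∃ Ψa Ψn Ψl : SL(2, ℝ) → ℝ, SF Γ (fun g => 1 - ∏ k ∈ Finset.range m, (1 - Ψs k g)) Ψa Ψn Ψl ∧ (∀ g, |Ψn g| ≤ m * B1) ∧ ∀ g, |Ψl g| ≤ m * B2

/-- **Row FRM** (finitely many open sets, finite time; medium; from CHF, STH, AVG, LFH, LFU, UNF, VIS, EN.XFL; compare FRQ). `m = 0` is trivial; `m ≥ 1`. For `k < m`: VIS for `O k`: `O1_k`, `δ_k`; CHF for `O1_k`: `O'_k`, `c_k`, `C_k`, `χ_k`; `c0 = min c_k`, `C = max C_k`, `δ0 = min δ_k` (VP is monotone in `c0`). LFH for all pairs: `ε` = the minimum of the `ε0`; `θ, Cθ` from STH; `c = ε δ0/20`, `C3 = 2 m C Cθ`.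
`Ψ_k = θ((1/n) Σ χ_k(g aM i))` (AVG), `Ψ = 1 - Π_k (1 - Ψ_k)` (UNF). If `x = mkX g` spends at most `c n` of the time `[0, n]` in `O k`, then the set `D` of the `i < n` with `χ_k (g aM i) ≠ 1` has `#D ≤ 15 + (5/δ0)(c n + 5) ≤ ε n` for large `n`, so `Ψ_k g = 1`, `Ψ g = 1`. `δ = (e'/200)²` with `e' = min 1 e`, `κ0 = πδ/(8 K C3) ≤ 1`, `Q = δ²/128 = m² q`: LFH with `q`, LFU,
GP with `Ψ = Ψ'`, `B' = C3 e^n`, `l0 = εc/100`: `2 μ (one Ψ) ≤ 1 + e'`. -/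
def FRM_stmt : Prop := ∀ (Γ : Subgroup SL(2, ℝ)) (m : ℕ) (O : ℕ → Set (XG Γ)), QU.SurfaceGroup Γ → (∀ k < m, IsOpen (O k) ∧ (O k).Nonempty) → ∃ c : ℝ, 0 < c ∧ ∀ K e : ℝ, 1 ≤ K → 0 < e → ∃ n0 : ℕ, ∀ (μ : Measure (XG Γ)) (n : ℕ), n0 ≤ n → IsProbabilityMeasure μ → IR.GP Γ μ K →
  μ {x : XG Γ | ∃ k < m, volume.real {t : ℝ | t ∈ Icc (0 : ℝ) n ∧ fl Γ t x ∈ O k} ≤ c * n} ≤ ENNReal.ofReal (1 / 2 + e)

/-- **Row FRN** (finitely many open sets, infinite time; short; from FRM). `A_n` = the set of FRM; the set is contained in `∪_N ∩_(n ≥ N) A_n`. -/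
def FRN_stmt : Prop := ∀ (Γ : Subgroup SL(2, ℝ)) (m : ℕ) (O : ℕ → Set (XG Γ)), QU.SurfaceGroup Γ → (∀ k < m, IsOpen (O k) ∧ (O k).Nonempty) → ∃ c : ℝ, 0 < c ∧ ∀ (μ : Measure (XG Γ)) (K : ℝ), IsProbabilityMeasure μ → 1 ≤ K → IR.GP Γ μ K →
  μ {x : XG Γ | ∃ k < m, ∃ T0 : ℝ, ∀ T : ℝ, T0 ≤ T → volume.real {t : ℝ | t ∈ Icc 0 T ∧ fl Γ t x ∈ O k} ≤ c * T} ≤ 1 / 2

end

end Pool.Agent.FS
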