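import Pool.Agent.helper84.FS.SpecF

/-!
# MP_07c750, project FS, third part: all balls of radius `r` at once

`EN.Ux Γ r y`, the set of the `Γ g h` with `y = Γ g` and all entries of `h - 1` smaller than `r`, is the ball of radius `r` around `y`.
`CVB`: finitely many nonempty open sets such that every ball of radius `r` contains one of them. `FBT`, `FBI`: the theorem for all balls of radius `r` (finite time, infinite time) from FRM, FRN.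
-/

open scoped MatrixGroups ContDiff Topology UpperHalfPlane ComplexConjugate
open UpperHalfPlane MeasureTheory Filter Set

set_option autoImplicit false

namespace Pool.Agent.FS

open Pool.Agent.RS
open Pool.Agent.MS (bq BB BA SF pf)
open Pool.Agent.EN (XG MG mkX mkM fl pr)

noncomputable section

/-- finitely many open sets, one of them in every ball of radius `r` -/
def CVB_stmt : Prop := ∀ (Γ : Subgroup SL(2, ℝ)) (r : ℝ), QU.SurfaceGroup Γ → 0 < r →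
  ∃ (m : ℕ) (O : ℕ → Set (XG Γ)), (∀ k < m, IsOpen (O k) ∧ (O k).Nonempty) ∧ ∀ y : XG Γ, ∃ k < m, O k ⊆ EN.Ux Γ r y

/-- the theorem for all balls of radius `r`, finite time -/
def FBT_stmt : Prop := ∀ (Γ : Subgroup SL(2, ℝ)) (r : ℝ), QU.SurfaceGroup Γ → 0 < r → ∃ c : ℝ, 0 < c ∧ ∀ K e : ℝ, 1 ≤ K → 0 < e → ∃ n0 : ℕ, ∀ (μ : Measure (XG Γ)) (n : ℕ), n0 ≤ n → IsProbabilityMeasure μ → IR.GP Γ μ K →
  μ {x : XG Γ | ∃ y : XG Γ, volume.real {t : ℝ | t ∈ Icc (0 : ℝ) n ∧ fl Γ t x ∈ EN.Ux Γ r y} ≤ c * n} ≤ ENNReal.ofReal (1 / 2 + e)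

/-- the theorem for all balls of radius `r`, infinite time -/
def FBI_stmt : Prop := ∀ (Γ : Subgroup SL(2, ℝ)) (r : ℝ), QU.SurfaceGroup Γ → 0 < r → ∃ c : ℝ, 0 < c ∧ ∀ (μ : Measure (XG Γ)) (K : ℝ), IsProbabilityMeasure μ → 1 ≤ K → IR.GP Γ μ K →
  μ {x : XG Γ | ∃ (y : XG Γ) (T0 : ℝ), ∀ T : ℝ, T0 ≤ T → volume.real {t : ℝ | t ∈ Icc 0 T ∧ fl Γ t x ∈ EN.Ux Γ r y} ≤ c * T} ≤ 1 / 2

theorem CVB_nr_open (s : ℝ) : IsOpen {h : SL(2, ℝ) | EN.nr s h} := by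
  have h1 : {h : SL(2, ℝ) | EN.nr s h} = ⋂ i : Fin 2, ⋂ j : Fin 2, {h : SL(2, ℝ) | |h.1 i j - (1 : Matrix (Fin 2) (Fin 2) ℝ) i j| < s} := by
    ext h
    simp only [EN.nr, mem_ofPred_eq, mem_iInter]
  rw [h1]
  refine isOpen_iInter_of_finite fun i => isOpen_iInter_of_finite fun j => ?_
  have hc : Continuous fun h : SL(2, ℝ) => h.1 i j := (continuous_apply j).comp ((continuous_apply i).comp continuous_subtype_val)
  exact isOpen_lt (by fun_prop) continuous_const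

theorem CVB_nr_one (s : ℝ) (hs : 0 < s) : EN.nr s (1 : SL(2, ℝ)) := by
  intro i j
  have h1 : (1 : SL(2, ℝ)).1 i j = (1 : Matrix (Fin 2) (Fin 2) ℝ) i j := rfl
  rw [h1, sub_self, abs_zero]
  exact hs

theorem CVB_proof (hXFL : EN.XFL_stmt) (hXTX : EN.XTX_stmt) : CVB_stmt := by
  intro Γ r hΓ hr
  obtain ⟨-, -, -, hop, hsurj, -, -, -, -, -, heq, -⟩ := hXFL Γ
  have hcpt := (hXTX Γ hΓ).1
  -- a small neighbourhood of the identity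
  have hV : ∃ V : Set SL(2, ℝ), IsOpen V ∧ (1 : SL(2, ℝ)) ∈ V ∧ ∀ w ∈ V, ∀ h ∈ V, EN.nr r (w⁻¹ * h) := by
    have hcont : Continuous fun p : SL(2, ℝ) × SL(2, ℝ) => p.1⁻¹ * p.2 := continuous_fst.inv.mul continuous_snd
    have h1 : ∀ᶠ p : SL(2, ℝ) × SL(2, ℝ) in 𝓝 (1, 1), EN.nr r (p.1⁻¹ * p.2) := by
      have h2 : EN.nr r ((1 : SL(2, ℝ))⁻¹ * 1) := by
        rw [inv_one, one_mul]
        exact CVB_nr_one r hr
      exact ((CVB_nr_open r).preimage hcont).mem_nhds h2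
    rw [nhds_prod_eq, Filter.eventually_prod_iff] at h1
    obtain ⟨pa, hpa, pb, hpb, hsub⟩ := h1
    obtain ⟨V, hV1, hV2, hV3⟩ := mem_nhds_iff.1 (hpa.and hpb)
    exact ⟨V, hV2, hV3, fun w hw h hh => hsub (hV1 hw).1 (hV1 hh).2⟩
  obtain ⟨V, hVo, hV1, hV2⟩ := hV
  -- the open sets
  set U : SL(2, ℝ) → Set (XG Γ) := fun g => mkX Γ '' ((fun h => g * h) '' V) with hU
  have hUo : ∀ g, IsOpen (U g) := fun g => hop _ ((Homeomorph.mulLeft g).isOpenMap _ hVo)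
  have hUm : ∀ g, mkX Γ g ∈ U g := fun g => ⟨g, ⟨1, hV1, mul_one g⟩, rfl⟩
  have hcov : (univ : Set (XG Γ)) ⊆ ⋃ g, U g := by
    intro x _
    obtain ⟨g, rfl⟩ := hsurj x
    exact mem_iUnion.2 ⟨g, hUm g⟩
  obtain ⟨t, ht⟩ := isCompact_univ.elim_finite_subcover U hUo hcov
  -- enumeration
  set L := t.toList with hL
  refine ⟨L.length, fun k => U (L.getD k 1), fun k _ => ⟨hUo _, ⟨_, hUm _⟩⟩, fun y => ?_⟩
  obtain ⟨g0, rfl⟩ := hsurj y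
  have h2 := ht (mem_univ (mkX Γ g0))
  simp only [mem_iUnion] at h2
  obtain ⟨g, hg, h3⟩ := h2
  have h4 : g ∈ L := Finset.mem_toList.2 hg
  obtain ⟨k, hk, hk2⟩ := List.getElem_of_mem h4
  refine ⟨k, hk, ?_⟩
  have h5 : L.getD k 1 = g := by
    rw [List.getD_eq_getElem L 1 hk, hk2]
  show U (L.getD k 1) ⊆ _
  rw [h5]
  obtain ⟨_, ⟨w, hw, rfl⟩, h6⟩ := h3
  rintro _ ⟨_, ⟨h, hh, rfl⟩, rfl⟩
  -- mkX g0 = mkX (g * w)
  refine ⟨g * w, w⁻¹ * h, hV2 w hw h hh, h6.symm, ?_⟩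
  show mkX Γ (g * h) = _
  rw [mul_assoc, ← mul_assoc w, mul_inv_cancel, one_mul]

theorem FBT_mono (Γ : Subgroup SL(2, ℝ)) (x : XG Γ) (O U : Set (XG Γ)) (T : ℝ) (h : O ⊆ U) :
    volume.real {t : ℝ | t ∈ Icc (0 : ℝ) T ∧ fl Γ t x ∈ O} ≤ volume.real {t : ℝ | t ∈ Icc (0 : ℝ) T ∧ fl Γ t x ∈ U} := by
  refine measureReal_mono (fun t ht => ⟨ht.1, h ht.2⟩) ?_
  exact ((measure_mono (fun t ht => ht.1)).trans_lt (by rw [Real.volume_Icc]; exact ENNReal.ofReal_lt_top : volume (Icc (0 : ℝ) T) < ⊤)).ne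

theorem FBT_proof (hXFL : EN.XFL_stmt) (hXTX : EN.XTX_stmt) (hFRM : FRM_stmt) : FBT_stmt := by
  intro Γ r hΓ hr
  obtain ⟨m, O, hO, hc⟩ := CVB_proof hXFL hXTX Γ r hΓ hr
  obtain ⟨c, hc0, H⟩ := hFRM Γ m O hΓ hO
  refine ⟨c, hc0, fun K e hK he => ?_⟩
  obtain ⟨n0, H⟩ := H K e hK he
  refine ⟨n0, fun μ n hn hμ hGP => (measure_mono ?_).trans (H μ n hn hμ hGP)⟩
  rintro x ⟨y, hy⟩
  obtain ⟨k, hk, hs⟩ := hc y
  exact ⟨k, hk, (FBT_mono Γ x _ _ n hs).trans hy⟩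

theorem FBI_proof (hXFL : EN.XFL_stmt) (hXTX : EN.XTX_stmt) (hFRN : FRN_stmt) : FBI_stmt := by
  intro Γ r hΓ hr
  obtain ⟨m, O, hO, hc⟩ := CVB_proof hXFL hXTX Γ r hΓ hr
  obtain ⟨c, hc0, H⟩ := hFRN Γ m O hΓ hO
  refine ⟨c, hc0, fun μ K hμ hK hGP => (measure_mono ?_).trans (H μ K hμ hK hGP)⟩
  rintro x ⟨y, T0, hy⟩
  obtain ⟨k, hk, hs⟩ := hc y
  exact ⟨k, hk, T0, fun T hT => (FBT_mono Γ x _ _ T hs).trans (hy T hT)⟩

end

end Pool.Agent.FS
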