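import Pool.Agent.helper84.FS.Ball

/-!
# MP_07c750, project FS: the final theorem for one lift

`DG_final`: for every surface group there are `c(r) > 0` and times `n0(r, e)` such that every quantum limit has ONE lift `μ` with: the points which spend, for some ball `B` of radius `r`, eventually at most the proportion `c(r)` of the time in `B`
have mass at most `1/2`; the same for finite times `n ≥ n0(r, e)` up to `e`; every ball of radius `r` has mass at least `c(r)/3`; the points whose orbit is not dense have mass at most `1/2`.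
-/

open scoped MatrixGroups ContDiff Topology UpperHalfPlane ComplexConjugate
open UpperHalfPlane MeasureTheory Filter Set

set_option autoImplicit false

namespace Pool.Agent.FS

open Pool.Agent.RS
open Pool.Agent.MS (bq BB BA SF pf)
open Pool.Agent.EN (XG MG mkX mkM fl pr)

noncomputable section

/-- the same text as `HLK_stmt` of helper81/FS/HLK.lean -/
def DGH_stmt : Prop := ∀ Γ : Subgroup SL(2, ℝ), QU.SurfaceGroup Γ → ∃ K : ℝ, 1 ≤ K ∧ ∀ (F : Set ℍ) (r : ℕ → ℝ) (φ : ℕ → ℍ → ℂ) (ν : Measure (MG Γ)),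
  IsFundamentalDomain Γ F (volume : Measure ℍ) → Tendsto r atTop atTop → (∀ k, Eig Γ (r k) (φ k)) →
  (∀ k, ∫ z in F, ‖φ k z‖ ^ 2 = 1) → IsFiniteMeasure ν → (∀ V : MG Γ → ℝ, Continuous V → Tendsto (fun k => ∫ z in F, V (mkM Γ z) * ‖φ k z‖ ^ 2) atTop (𝓝 (∫ x, V x ∂ν))) →
  ∃ μ : Measure (XG Γ), IsProbabilityMeasure μ ∧ (∀ t, μ.map (fl Γ t) = μ) ∧ μ.map (pr Γ) = ν ∧ IR.GP Γ μ K

/-- Tonelli: a set in which most points spend the proportion `c` of the time has mass at least `c (1/2 - e)` -/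
theorem DG_low (hXFL : EN.XFL_stmt) (hXTX : EN.XTX_stmt) (Γ : Subgroup SL(2, ℝ)) (hΓ : QU.SurfaceGroup Γ) (μ : Measure (XG Γ)) (hμ : IsProbabilityMeasure μ) (hinv : ∀ t, μ.map (fl Γ t) = μ)
    (O : Set (XG Γ)) (hO : IsOpen O) (c e : ℝ) (n : ℕ) (hn : 0 < n) (hc : 0 < c) (he : 0 ≤ e) (he2 : e ≤ 1 / 2)
    (h : μ {x : XG Γ | volume.real {t : ℝ | t ∈ Icc (0 : ℝ) n ∧ fl Γ t x ∈ O} ≤ c * n} ≤ ENNReal.ofReal (1 / 2 + e)) : c * (1 / 2 - e) ≤ μ.real O := by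
  have hfl := (hXFL Γ).1
  have hsc := (hXTX Γ hΓ).2.2
  have hn0 : (0 : ℝ) < n := Nat.cast_pos.2 hn
  set ι : Measure ℝ := volume.restrict (Icc (0 : ℝ) n) with hι
  have hcont : Continuous fun q : XG Γ × ℝ => fl Γ q.2 q.1 := hfl.cont.comp (continuous_snd.prodMk continuous_fst)
  have hmeas : Measurable fun q : XG Γ × ℝ => O.indicator (fun _ => (1 : ENNReal)) (fl Γ q.2 q.1) :=
    (measurable_const.indicator hO.measurableSet).comp hcont.measurable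
  have hft : ∀ t, Measurable (fl Γ t) := fun t => (hfl.cont.comp (Continuous.prodMk_right t)).measurable
  have hf : ∀ x : XG Γ, ∫⁻ t, O.indicator (fun _ => (1 : ENNReal)) (fl Γ t x) ∂ι = volume {t : ℝ | t ∈ Icc (0 : ℝ) n ∧ fl Γ t x ∈ O} := by
    intro x
    have hS : MeasurableSet {t : ℝ | fl Γ t x ∈ O} := by
      have h1 : Continuous fun t => fl Γ t x := hfl.cont.comp (Continuous.prodMk_left x)
      exact (hO.preimage h1).measurableSet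
    have h2 : (fun t : ℝ => O.indicator (fun _ => (1 : ENNReal)) (fl Γ t x)) = {t : ℝ | fl Γ t x ∈ O}.indicator 1 := by
      funext t
      by_cases ht : fl Γ t x ∈ O
      · rw [indicator_of_mem ht, indicator_of_mem (show t ∈ {t : ℝ | fl Γ t x ∈ O} from ht)]
        rfl
      · rw [indicator_of_notMem ht, indicator_of_notMem (show t ∉ {t : ℝ | fl Γ t x ∈ O} from ht)]
    rw [h2, lintegral_indicator_one hS, hι, Measure.restrict_apply hS]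
    congr 1
    ext t
    exact and_comm
  have hI : ∫⁻ x, ∫⁻ t, O.indicator (fun _ => (1 : ENNReal)) (fl Γ t x) ∂ι ∂μ = μ O * ENNReal.ofReal n := by
    rw [lintegral_lintegral_swap hmeas.aemeasurable]
    have h1 : ∀ t : ℝ, ∫⁻ x, O.indicator (fun _ => (1 : ENNReal)) (fl Γ t x) ∂μ = μ O := by
      intro t
      rw [← lintegral_map (measurable_const.indicator hO.measurableSet) (hft t), hinv t]
      exact lintegral_indicator_one hO.measurableSet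
    simp only [h1]
    rw [lintegral_const, hι, Measure.restrict_apply_univ, Real.volume_Icc, sub_zero]
  set f : XG Γ → ENNReal := fun x => ∫⁻ t, O.indicator (fun _ => (1 : ENNReal)) (fl Γ t x) ∂ι with hfd
  have hfm : Measurable f := hmeas.lintegral_prod_right'
  have hM := mul_meas_ge_le_lintegral (μ := μ) hfm (ENNReal.ofReal (c * n))
  rw [hI] at hM
  set A : Set (XG Γ) := {x : XG Γ | volume.real {t : ℝ | t ∈ Icc (0 : ℝ) n ∧ fl Γ t x ∈ O} ≤ c * n} with hA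
  have hsub : Aᶜ ⊆ {x | ENNReal.ofReal (c * n) ≤ f x} := by
    intro x hx
    have h1 : c * n < volume.real {t : ℝ | t ∈ Icc (0 : ℝ) n ∧ fl Γ t x ∈ O} := lt_of_not_ge hx
    have hfin : volume {t : ℝ | t ∈ Icc (0 : ℝ) n ∧ fl Γ t x ∈ O} ≠ ⊤ :=
      ((measure_mono (fun t ht => ht.1)).trans_lt (by rw [Real.volume_Icc]; exact ENNReal.ofReal_lt_top : volume (Icc (0 : ℝ) (n : ℝ)) < ⊤)).ne
    show ENNReal.ofReal (c * n) ≤ f x
    rw [hfd]
    show ENNReal.ofReal (c * n) ≤ ∫⁻ t, O.indicator (fun _ => (1 : ENNReal)) (fl Γ t x) ∂ι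
    rw [hf x, ← ENNReal.ofReal_toReal hfin]
    exact ENNReal.ofReal_le_ofReal h1.le
  have h1 : (1 : ENNReal) ≤ μ A + μ Aᶜ := by
    rw [← measure_univ (μ := μ), ← union_compl_self A]
    exact measure_union_le A Aᶜ
  have h2 : ENNReal.ofReal (c * n) * μ Aᶜ ≤ μ O * ENNReal.ofReal n := (mul_le_mul_right (measure_mono hsub) _).trans hM
  -- real numbers
  have h3 : (1 : ℝ) ≤ (1 / 2 + e) + μ.real Aᶜ := by
    have h4 := ENNReal.toReal_mono (ENNReal.add_ne_top.2 ⟨measure_ne_top μ A, measure_ne_top μ Aᶜ⟩) h1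
    rw [ENNReal.toReal_add (measure_ne_top μ A) (measure_ne_top μ Aᶜ), ENNReal.toReal_one] at h4
    have h5 : (μ A).toReal ≤ 1 / 2 + e := ENNReal.toReal_le_of_le_ofReal (by linarith) h
    have h6 : μ.real Aᶜ = (μ Aᶜ).toReal := rfl
    linarith
  have h4 : c * n * μ.real Aᶜ ≤ μ.real O * n := by
    have h5 := ENNReal.toReal_mono (ENNReal.mul_ne_top (measure_ne_top μ O) ENNReal.ofReal_ne_top) h2
    rw [ENNReal.toReal_mul, ENNReal.toReal_mul, ENNReal.toReal_ofReal (by positivity), ENNReal.toReal_ofReal hn0.le] at h5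
    exact h5
  have h5 : c * n * (1 / 2 - e) ≤ μ.real O * n := (mul_le_mul_of_nonneg_left (by linarith) (by positivity)).trans h4
  have h6 : (c * (1 / 2 - e)) * n ≤ μ.real O * n := by linarith
  exact le_of_mul_le_mul_right h6 hn0

theorem DG_ball (hXFL : EN.XFL_stmt) (Γ : Subgroup SL(2, ℝ)) (r : ℝ) (g : SL(2, ℝ)) : IsOpen (mkX Γ '' ((fun h => g * h) '' {h : SL(2, ℝ) | EN.nr r h})) :=
  (hXFL Γ).2.2.2.1 _ ((Homeomorph.mulLeft g).isOpenMap _ (CVB_nr_open r))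

theorem DG_final (hXFL : EN.XFL_stmt) (hXTX : EN.XTX_stmt) (hFRM : FRM_stmt) (hFRN : FRN_stmt) (hFSD : FSD_stmt) (hHLK : DGH_stmt) :
    ∀ Γ : Subgroup SL(2, ℝ), QU.SurfaceGroup Γ → ∃ (c : ℝ → ℝ) (n0 : ℝ → ℝ → ℕ), (∀ r, 0 < r → 0 < c r) ∧
      ∀ (F : Set ℍ) (s : ℕ → ℝ) (φ : ℕ → ℍ → ℂ) (ν : Measure (MG Γ)), IsFundamentalDomain Γ F (volume : Measure ℍ) → Tendsto s atTop atTop → (∀ k, Eig Γ (s k) (φ k)) →
        (∀ k, ∫ z in F, ‖φ k z‖ ^ 2 = 1) → IsFiniteMeasure ν → (∀ V : MG Γ → ℝ, Continuous V → Tendsto (fun k => ∫ z in F, V (mkM Γ z) * ‖φ k z‖ ^ 2) atTop (𝓝 (∫ x, V x ∂ν))) →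
        ∃ μ : Measure (XG Γ), IsProbabilityMeasure μ ∧ (∀ t, μ.map (fl Γ t) = μ) ∧ μ.map (pr Γ) = ν ∧
          (∀ r, 0 < r → μ {x : XG Γ | ∃ (y : XG Γ) (T0 : ℝ), ∀ T : ℝ, T0 ≤ T → volume.real {t : ℝ | t ∈ Icc 0 T ∧ fl Γ t x ∈ EN.Ux Γ r y} ≤ c r * T} ≤ 1 / 2) ∧
          (∀ (r e : ℝ) (n : ℕ), 0 < r → 0 < e → n0 r e ≤ n → μ {x : XG Γ | ∃ y : XG Γ, volume.real {t : ℝ | t ∈ Icc (0 : ℝ) n ∧ fl Γ t x ∈ EN.Ux Γ r y} ≤ c r * n} ≤ ENNReal.ofReal (1 / 2 + e)) ∧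
          (∀ (r : ℝ) (y : XG Γ), 0 < r → ENNReal.ofReal (c r / 3) ≤ μ (EN.Ux Γ r y)) ∧
          MeasurableSet {x : XG Γ | ¬ Dense (range fun t : ℝ => fl Γ t x)} ∧ μ {x : XG Γ | ¬ Dense (range fun t : ℝ => fl Γ t x)} ≤ 1 / 2 := by
  intro Γ hΓ
  obtain ⟨K, hK, H⟩ := hHLK Γ hΓ
  have hT : ∀ r : ℝ, ∃ c : ℝ, 0 < r → (0 < c ∧ (∀ e : ℝ, 0 < e → ∃ n0 : ℕ, ∀ (μ : Measure (XG Γ)) (n : ℕ), n0 ≤ n → IsProbabilityMeasure μ → IR.GP Γ μ K →
      μ {x : XG Γ | ∃ y : XG Γ, volume.real {t : ℝ | t ∈ Icc (0 : ℝ) n ∧ fl Γ t x ∈ EN.Ux Γ r y} ≤ c * n} ≤ ENNReal.ofReal (1 / 2 + e)) ∧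
      ∀ μ : Measure (XG Γ), IsProbabilityMeasure μ → IR.GP Γ μ K →
        μ {x : XG Γ | ∃ (y : XG Γ) (T0 : ℝ), ∀ T : ℝ, T0 ≤ T → volume.real {t : ℝ | t ∈ Icc 0 T ∧ fl Γ t x ∈ EN.Ux Γ r y} ≤ c * T} ≤ 1 / 2) := by
    intro r
    by_cases hr : 0 < r
    · obtain ⟨c1, hc1, H1⟩ := FBT_proof hXFL hXTX hFRM Γ r hΓ hr
      obtain ⟨c2, hc2, H2⟩ := FBI_proof hXFL hXTX hFRN Γ r hΓ hr
      refine ⟨min c1 c2, fun _ => ⟨lt_min hc1 hc2, fun e he => ?_, fun μ hμ hGP => ?_⟩⟩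
      · obtain ⟨n0, H3⟩ := H1 K e hK he
        refine ⟨n0, fun μ n hn hμ hGP => (measure_mono ?_).trans (H3 μ n hn hμ hGP)⟩
        rintro x ⟨y, hy⟩
        exact ⟨y, hy.trans (mul_le_mul_of_nonneg_right (min_le_left _ _) (Nat.cast_nonneg n))⟩
      · refine (measure_mono ?_).trans (H2 μ K hμ hK hGP)
        rintro x ⟨y, T0, hy⟩
        refine ⟨y, max T0 0, fun T hT => (hy T ((le_max_left _ _).trans hT)).trans ?_⟩
        exact mul_le_mul_of_nonneg_right (min_le_right _ _) ((le_max_right _ _).trans hT)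
    · exact ⟨0, fun h => absurd h hr⟩
  choose c hc using hT
  have hN : ∀ r e : ℝ, ∃ n0 : ℕ, 0 < r → 0 < e → ∀ (μ : Measure (XG Γ)) (n : ℕ), n0 ≤ n → IsProbabilityMeasure μ → IR.GP Γ μ K →
      μ {x : XG Γ | ∃ y : XG Γ, volume.real {t : ℝ | t ∈ Icc (0 : ℝ) n ∧ fl Γ t x ∈ EN.Ux Γ r y} ≤ c r * n} ≤ ENNReal.ofReal (1 / 2 + e) := by
    intro r e
    by_cases hr : 0 < r
    · by_cases he : 0 < e
      · obtain ⟨n0, h⟩ := (hc r hr).2.1 e he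
        exact ⟨n0, fun _ _ => h⟩
      · exact ⟨0, fun _ h => absurd h he⟩
    · exact ⟨0, fun h _ => absurd h hr⟩
  choose n0 hn0 using hN
  refine ⟨c, n0, fun r hr => (hc r hr).1, fun F s φ ν hF hs hφ h1 hν hlim => ?_⟩
  obtain ⟨μ, hμ, hinv, hpr, hGP⟩ := H F s φ ν hF hs hφ h1 hν hlim
  obtain ⟨hD1, hD2⟩ := hFSD Γ μ K hΓ hμ hK hGP
  refine ⟨μ, hμ, hinv, hpr, fun r hr => (hc r hr).2.2 μ hμ hGP, fun r e n hr he hn => hn0 r e hr he μ n hn hμ hGP, fun r y hr => ?_, hD1, hD2⟩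
  -- the mass of a ball
  obtain ⟨g, hg⟩ := (hXFL Γ).2.2.2.2.1 y
  set O : Set (XG Γ) := mkX Γ '' ((fun h => g * h) '' {h : SL(2, ℝ) | EN.nr r h}) with hO
  have hOU : O ⊆ EN.Ux Γ r y := by
    rintro _ ⟨_, ⟨h, hh, rfl⟩, rfl⟩
    exact ⟨g, h, hh, hg.symm, rfl⟩
  have hUO : EN.Ux Γ r y ⊆ O := by
    rintro _ ⟨g', h, hh, hy, rfl⟩
    obtain ⟨γ, hγ⟩ := ((hXFL Γ).2.2.2.2.2.2.2.2.2.2.1 g' g).1 (by rw [hg, ← hy])
    refine ⟨g * h, ⟨h, hh, rfl⟩, ?_⟩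
    refine (((hXFL Γ).2.2.2.2.2.2.2.2.2.2.1 (g' * h) (g * h)).2 ⟨γ, ?_⟩).symm
    rw [← mul_assoc, hγ]
  have hEq : O = EN.Ux Γ r y := Subset.antisymm hOU hUO
  have hcr := (hc r hr).1
  have hsmall := hn0 r (1 / 6) hr (by norm_num) μ (max (n0 r (1 / 6)) 1) (le_max_left _ _) hμ hGP
  have h2 := DG_low hXFL hXTX Γ hΓ μ hμ hinv O (DG_ball hXFL Γ r g) (c r) (1 / 6) (max (n0 r (1 / 6)) 1) (lt_of_lt_of_le one_pos (le_max_right _ _)) hcr (by norm_num) (by norm_num) (by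
    refine (measure_mono ?_).trans hsmall
    intro x hx
    refine ⟨y, ?_⟩
    rw [← hEq]
    exact hx)
  rw [← hEq]
  have h3 : c r / 3 ≤ μ.real O := by linarith
  calc ENNReal.ofReal (c r / 3) ≤ ENNReal.ofReal (μ.real O) := ENNReal.ofReal_le_ofReal h3
    _ = μ O := ENNReal.ofReal_toReal (measure_ne_top μ O)

end

end Pool.Agent.FS
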