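import Pool.Agent.helper52.FS.SpecP

/-!
# MP_07c750, project FS, row STF: the windowed Plancherel inequality
-/

open MeasureTheory Set

set_option autoImplicit false

namespace Pool.Agent.FS

noncomputable section

theorem STF_een (s : ℝ) : ‖ee s‖ = 1 := Complex.norm_exp_ofReal_mul_I s

theorem STF_eec : Continuous ee := by unfold ee; fun_prop

theorem STF_eea (s t : ℝ) : ee (s + t) = ee s * ee t := by
  unfold ee
  rw [← Complex.exp_add]
  congr 1
  push_cast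
  ring

/-- the inner integral -/
def STF_I (c x0 η : ℝ) (G : ℝ → ℂ) (x : ℝ) : ℂ := ∫ s in Icc (-(c / 2)) (c / 2), G (x0 + x - s) * ee (η * s)

/-- the one sided window -/
def STF_E (t : ℝ) : ℝ := (Ici (0 : ℝ)).indicator (fun t => Real.exp (-t) * rho t) t

theorem STF_Enn (hR : RHO_stmt) (t : ℝ) : 0 ≤ STF_E t :=
  indicator_nonneg (fun x _ => mul_nonneg (Real.exp_pos _).le (hR.nn x)) t

theorem STF_Ele (hR : RHO_stmt) (t : ℝ) : STF_E t ≤ rho t := by
  unfold STF_E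
  by_cases ht : t ∈ Ici (0 : ℝ)
  · rw [indicator_of_mem ht]
    have h1 : Real.exp (-t) ≤ 1 := Real.exp_le_one_iff.2 (by have : (0 : ℝ) ≤ t := ht; linarith)
    nlinarith [hR.nn t]
  · rw [indicator_of_notMem ht]
    exact hR.nn t

theorem STF_Em (hR : RHO_stmt) : Measurable STF_E := by
  unfold STF_E
  exact Measurable.indicator (by have := hR.ct; fun_prop) measurableSet_Ici

theorem STF_Ei (hR : RHO_stmt) : Integrable STF_E := by
  refine Integrable.mono' hR.ig (STF_Em hR).aestronglyMeasurable (Filter.Eventually.of_forall fun t => ?_)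
  rw [Real.norm_eq_abs, abs_of_nonneg (STF_Enn hR t)]
  exact STF_Ele hR t

/-- the averaged window -/
def STF_k (c v : ℝ) : ℝ := ∫ s in Icc (-(c / 2)) (c / 2), STF_E (v - s)

theorem STF_Kint (hR : RHO_stmt) (c : ℝ) :
    Integrable (fun p : ℝ × ℝ => STF_E (p.1 - p.2)) (volume.prod (volume.restrict (Icc (-(c / 2)) (c / 2)))) := by
  have hm : AEStronglyMeasurable (fun p : ℝ × ℝ => STF_E (p.1 - p.2)) (volume.prod (volume.restrict (Icc (-(c / 2)) (c / 2)))) := by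
    have := STF_Em hR
    exact Measurable.aestronglyMeasurable (by fun_prop)
  rw [integrable_prod_iff' hm]
  refine ⟨Filter.Eventually.of_forall fun s => (STF_Ei hR).comp_sub_right s, ?_⟩
  have h1 : (fun s : ℝ => ∫ x, ‖STF_E (x - s)‖) = fun _ => ∫ x, ‖STF_E x‖ := by
    funext s
    exact integral_sub_right_eq_self (fun x => ‖STF_E x‖) s
  show Integrable (fun s : ℝ => ∫ x, ‖STF_E (x - s)‖) _
  rw [h1]
  exact integrable_const _

theorem STF_kint (hR : RHO_stmt) (c : ℝ) : Integrable (STF_k c) := (STF_Kint hR c).integral_prod_left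

theorem STF_kfin (hR : RHO_stmt) (c v : ℝ) : IntegrableOn (fun s => STF_E (v - s)) (Icc (-(c / 2)) (c / 2)) :=
  ((STF_Ei hR).comp_sub_left v).integrableOn

theorem STF_knn (hR : RHO_stmt) (c v : ℝ) : 0 ≤ STF_k c v := integral_nonneg fun _ => STF_Enn hR _

theorem STF_kle (hR : RHO_stmt) (c v : ℝ) (hc : 0 < c) : STF_k c v ≤ c := by
  unfold STF_k
  have h1 : ∫ s in Icc (-(c / 2)) (c / 2), STF_E (v - s) ≤ ∫ _s in Icc (-(c / 2)) (c / 2), (1 : ℝ) := by
    refine setIntegral_mono (STF_kfin hR c v) (integrable_const _) fun s => ?_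
    exact (STF_Ele hR _).trans (hR.le _)
  refine h1.trans (le_of_eq ?_)
  rw [integral_const]
  simp only [smul_eq_mul, mul_one, measureReal_restrict_apply_univ, Real.volume_real_Icc]
  rw [max_eq_left (by linarith)]
  ring

theorem STF_klo (hR : RHO_stmt) (c v : ℝ) (hc : 0 < c) (hc1 : c ≤ 1) (hv : v ∈ Icc (1 / 2 : ℝ) (5 / 2)) : c / 100 ≤ STF_k c v := by
  unfold STF_k
  have h1 : ∫ _s in Icc (-(c / 2)) (c / 2), (1 / 100 : ℝ) ≤ ∫ s in Icc (-(c / 2)) (c / 2), STF_E (v - s) := by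
    refine setIntegral_mono_on (integrable_const _) (STF_kfin hR c v) measurableSet_Icc fun s hs => ?_
    have h2 : 0 ≤ v - s := by linarith [hv.1, hs.2]
    have h3 : v - s ≤ 3 := by linarith [hv.2, hs.1]
    have h4 : STF_E (v - s) = Real.exp (-(v - s)) * rho (v - s) := by
      unfold STF_E
      rw [indicator_of_mem (show v - s ∈ Ici (0 : ℝ) from h2)]
    have h5 : 1 / 4 ≤ rho (v - s) := hR.lo _ (by rw [abs_of_nonneg h2]; exact h3)
    have h6 : Real.exp (-3) ≤ Real.exp (-(v - s)) := Real.exp_le_exp.2 (by linarith)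
    have h7 : 1 / 25 ≤ Real.exp (-3) := by
      rw [Real.exp_neg, ← one_div]
      have h8 : Real.exp 3 ≤ 25 := by
        have h9 : Real.exp 3 = Real.exp 1 ^ 3 := by rw [← Real.exp_nat_mul]; norm_num
        rw [h9]
        have h10 := Real.exp_one_lt_d9
        have h11 : Real.exp 1 ≤ 2.72 := by linarith
        calc Real.exp 1 ^ 3 ≤ 2.72 ^ 3 := pow_le_pow_left₀ (Real.exp_pos _).le h11 3
          _ ≤ 25 := by norm_num
      exact one_div_le_one_div_of_le (Real.exp_pos _) h8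
    rw [h4]
    nlinarith
  refine le_trans (le_of_eq ?_) h1
  rw [integral_const]
  simp only [smul_eq_mul, measureReal_restrict_apply_univ, Real.volume_real_Icc]
  rw [max_eq_left (by linarith)]
  ring

/-- Cauchy-Schwarz with a weight -/
theorem STF_CS (μ : Measure ℝ) (w F : ℝ → ℝ) (W : ℝ) (hW : 0 < W) (hw0 : ∀ x, 0 ≤ w x) (hw : Integrable w μ) (hwW : ∫ x, w x ∂μ ≤ W)
    (h1 : Integrable (fun x => w x * F x) μ) (h2 : Integrable (fun x => w x * F x ^ 2) μ) :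
    (∫ x, w x * F x ∂μ) ^ 2 ≤ W * ∫ x, w x * F x ^ 2 ∂μ := by
  set a := ∫ x, w x * F x ∂μ with ha
  have h3 : 0 ≤ ∫ x, w x * (F x - a / W) ^ 2 ∂μ := integral_nonneg fun x => mul_nonneg (hw0 x) (sq_nonneg _)
  have h4 : ∫ x, w x * (F x - a / W) ^ 2 ∂μ = ∫ x, (w x * F x ^ 2 - 2 * (a / W) * (w x * F x) + (a / W) ^ 2 * w x) ∂μ :=
    integral_congr_ae (Filter.Eventually.of_forall fun x => by ring_nf)
  have i1 : Integrable (fun x => w x * F x ^ 2 - 2 * (a / W) * (w x * F x)) μ := h2.sub (h1.const_mul _)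
  have i2 : Integrable (fun x => (a / W) ^ 2 * w x) μ := hw.const_mul _
  have i3 : Integrable (fun x => 2 * (a / W) * (w x * F x)) μ := h1.const_mul _
  rw [h4, integral_add i1 i2, integral_sub h2 i3, integral_const_mul, integral_const_mul, ← ha] at h3
  have h5 : (a / W) ^ 2 * ∫ x, w x ∂μ ≤ (a / W) ^ 2 * W := mul_le_mul_of_nonneg_left hwW (sq_nonneg _)
  have h6 : (a / W) ^ 2 * W = a ^ 2 / W := by field_simp
  have h7 : 2 * (a / W) * a = 2 * (a ^ 2 / W) := by ring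
  have h8 : a ^ 2 / W ≤ ∫ x, w x * F x ^ 2 ∂μ := by linarith
  rw [div_le_iff₀ hW] at h8
  linarith

theorem STF_Ic (c x0 : ℝ) (G : ℝ → ℂ) (hG : Continuous G) : Continuous fun p : ℝ × ℝ => STF_I c x0 p.2 G p.1 := by
  unfold STF_I
  refine continuous_parametric_integral_of_continuous (f := fun (p : ℝ × ℝ) (s : ℝ) => G (x0 + p.1 - s) * ee (p.2 * s)) ?_ isCompact_Icc
  have := STF_eec
  unfold Function.uncurry
  fun_prop

theorem STF_Ib (c x0 η M : ℝ) (G : ℝ → ℂ) (hc : 0 < c) (hM : ∀ x, ‖G x‖ ≤ M) (x : ℝ) : ‖STF_I c x0 η G x‖ ≤ M * c := by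
  unfold STF_I
  have h1 := norm_setIntegral_le_of_norm_le_const (μ := volume) (s := Icc (-(c / 2)) (c / 2)) (f := fun s => G (x0 + x - s) * ee (η * s)) (C := M)
    (by rw [Real.volume_Icc]; exact ENNReal.ofReal_lt_top) (fun s _ => by rw [norm_mul, STF_een, mul_one]; exact hM _)
  refine h1.trans (le_of_eq ?_)
  rw [Real.volume_real_Icc, max_eq_left (by linarith)]
  ring

/-- Plancherel for the inner integral -/
theorem STF_Ipl (hP : PLR_stmt) (c x0 M : ℝ) (G : ℝ → ℂ) (hG : Continuous G) (hM : ∀ x, ‖G x‖ ≤ M) (x : ℝ) :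
    Integrable (fun η : ℝ => ‖STF_I c x0 η G x‖ ^ 2) ∧ ∫ η, ‖STF_I c x0 η G x‖ ^ 2 = 2 * Real.pi * ∫ s in Icc (-(c / 2)) (c / 2), ‖G (x0 + x - s)‖ ^ 2 := by
  set g : ℝ → ℂ := (Icc (-(c / 2)) (c / 2)).indicator fun s => G (x0 + x - s) with hg
  have hM0 : 0 ≤ M := (norm_nonneg _).trans (hM 0)
  have h1 : Integrable g := by
    rw [hg, integrable_indicator_iff measurableSet_Icc]
    exact (Continuous.continuousOn (by fun_prop)).integrableOn_compact isCompact_Icc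
  have h2 : ∀ s, ‖g s‖ ≤ M := by
    intro s
    by_cases hs : s ∈ Icc (-(c / 2)) (c / 2)
    · rw [hg, indicator_of_mem hs]; exact hM _
    · rw [hg, indicator_of_notMem hs, norm_zero]; exact hM0
  have h3 : ∀ η : ℝ, ∫ v, ee (η * v) * g v = STF_I c x0 η G x := by
    intro η
    unfold STF_I
    rw [← integral_indicator measurableSet_Icc]
    refine integral_congr_ae (Filter.Eventually.of_forall fun s => ?_)
    show ee (η * s) * g s = _
    by_cases hs : s ∈ Icc (-(c / 2)) (c / 2)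
    · rw [hg, indicator_of_mem hs, indicator_of_mem hs, mul_comm]
    · rw [hg, indicator_of_notMem hs, indicator_of_notMem hs, mul_zero]
  have h4 : ∫ v, ‖g v‖ ^ 2 = ∫ s in Icc (-(c / 2)) (c / 2), ‖G (x0 + x - s)‖ ^ 2 := by
    rw [← integral_indicator measurableSet_Icc]
    refine integral_congr_ae (Filter.Eventually.of_forall fun s => ?_)
    show ‖g s‖ ^ 2 = _
    by_cases hs : s ∈ Icc (-(c / 2)) (c / 2)
    · rw [hg, indicator_of_mem hs, indicator_of_mem hs]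
    · rw [hg, indicator_of_notMem hs, indicator_of_notMem hs, norm_zero]; norm_num
  obtain ⟨h5, h6⟩ := hP g M h1 h2
  simp only [h3] at h5 h6
  rw [h4] at h6
  exact ⟨h5, h6⟩

/-- the transform as a Fourier integral -/
theorem STF_V (hR : RHO_stmt) (c x0 η M : ℝ) (G : ℝ → ℂ) (hG : Continuous G) (hM : ∀ x, ‖G x‖ ≤ M) :
    ∫ t in Ioi (0 : ℝ), (Real.exp (-t) : ℂ) * ee (η * t) * qm c x0 η G (-t) = ∫ v, ee (η * v) * (G (x0 - v) * (STF_k c v : ℂ)) := by
  have hec := STF_eec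
  have hEm := STF_Em hR
  have e1 : ∫ t in Ioi (0 : ℝ), (Real.exp (-t) : ℂ) * ee (η * t) * qm c x0 η G (-t) =
      ∫ t, ∫ s in Icc (-(c / 2)) (c / 2), (STF_E t : ℂ) * (G (x0 - (t + s)) * ee (η * (t + s))) := by
    rw [← integral_Ici_eq_integral_Ioi, ← integral_indicator measurableSet_Ici]
    refine integral_congr_ae (Filter.Eventually.of_forall fun t => ?_)
    show (Ici (0 : ℝ)).indicator (fun t : ℝ => (Real.exp (-t) : ℂ) * ee (η * t) * qm c x0 η G (-t)) t = ∫ s in Icc (-(c / 2)) (c / 2), (STF_E t : ℂ) * (G (x0 - (t + s)) * ee (η * (t + s)))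
    rw [integral_const_mul]
    by_cases ht : t ∈ Ici (0 : ℝ)
    · rw [indicator_of_mem ht]
      have e2 : STF_E t = Real.exp (-t) * rho t := by
        unfold STF_E
        rw [indicator_of_mem ht]
      have e3 : ∫ s in Icc (-(c / 2)) (c / 2), G (x0 - (t + s)) * ee (η * (t + s)) = ee (η * t) * ∫ s in Icc (-(c / 2)) (c / 2), G (x0 + -t - s) * ee (η * s) := by
        rw [← integral_const_mul]
        refine integral_congr_ae (Filter.Eventually.of_forall fun s => ?_)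
        show G (x0 - (t + s)) * ee (η * (t + s)) = ee (η * t) * (G (x0 + -t - s) * ee (η * s))
        rw [mul_add, STF_eea, show x0 - (t + s) = x0 + -t - s by ring]
        ring
      rw [e3, e2]
      unfold qm
      rw [hR.ev t]
      push_cast
      ring
    · rw [indicator_of_notMem ht]
      have e2 : STF_E t = 0 := by
        unfold STF_E
        rw [indicator_of_notMem ht]
      rw [e2]
      simp
  have i1 : Integrable (fun p : ℝ × ℝ => (STF_E p.1 : ℂ) * (G (x0 - (p.1 + p.2)) * ee (η * (p.1 + p.2)))) (volume.prod (volume.restrict (Icc (-(c / 2)) (c / 2)))) := by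
    refine Integrable.mono' ((STF_Ei hR).mul_prod (integrable_const M)) (Measurable.aestronglyMeasurable (by fun_prop)) (Filter.Eventually.of_forall fun p => ?_)
    rw [norm_mul, norm_mul, STF_een, mul_one, Complex.norm_real, Real.norm_eq_abs, abs_of_nonneg (STF_Enn hR _)]
    exact mul_le_mul_of_nonneg_left (hM _) (STF_Enn hR _)
  have i2 : Integrable (fun p : ℝ × ℝ => (STF_E (p.1 - p.2) : ℂ) * (G (x0 - p.1) * ee (η * p.1))) (volume.prod (volume.restrict (Icc (-(c / 2)) (c / 2)))) := by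
    refine Integrable.mono' ((STF_Kint hR c).mul_const M) (Measurable.aestronglyMeasurable (by fun_prop)) (Filter.Eventually.of_forall fun p => ?_)
    rw [norm_mul, norm_mul, STF_een, mul_one, Complex.norm_real, Real.norm_eq_abs, abs_of_nonneg (STF_Enn hR _)]
    exact mul_le_mul_of_nonneg_left (hM _) (STF_Enn hR _)
  have e4 : ∫ t, ∫ s in Icc (-(c / 2)) (c / 2), (STF_E t : ℂ) * (G (x0 - (t + s)) * ee (η * (t + s))) =
      ∫ s in Icc (-(c / 2)) (c / 2), ∫ t, (STF_E t : ℂ) * (G (x0 - (t + s)) * ee (η * (t + s))) := integral_integral_swap i1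
  have e5 : ∀ s : ℝ, ∫ t, (STF_E t : ℂ) * (G (x0 - (t + s)) * ee (η * (t + s))) = ∫ v, (STF_E (v - s) : ℂ) * (G (x0 - v) * ee (η * v)) := by
    intro s
    rw [← integral_sub_right_eq_self (fun t : ℝ => (STF_E t : ℂ) * (G (x0 - (t + s)) * ee (η * (t + s)))) s]
    simp only [sub_add_cancel]
  have e6 : ∫ v, ∫ s in Icc (-(c / 2)) (c / 2), (STF_E (v - s) : ℂ) * (G (x0 - v) * ee (η * v)) =
      ∫ s in Icc (-(c / 2)) (c / 2), ∫ v, (STF_E (v - s) : ℂ) * (G (x0 - v) * ee (η * v)) := integral_integral_swap i2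
  rw [e1, e4]
  simp only [e5]
  rw [← e6]
  refine integral_congr_ae (Filter.Eventually.of_forall fun v => ?_)
  show ∫ s in Icc (-(c / 2)) (c / 2), (STF_E (v - s) : ℂ) * (G (x0 - v) * ee (η * v)) = ee (η * v) * (G (x0 - v) * (STF_k c v : ℂ))
  rw [integral_mul_const]
  unfold STF_k
  rw [← integral_complex_ofReal]
  ring

theorem STF_sq1 (u s : ℝ) (hs : |s| ≤ 1 / 2) : 1 + u ^ 2 ≤ 2 * (1 + (u + s) ^ 2) := by
  have h1 := abs_le.1 hs
  nlinarith [sq_nonneg (u + 2 * s), h1.1, h1.2]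

/-- the first upper bound -/
theorem STF_U1 (hR : RHO_stmt) (hP : PLR_stmt) (c x0 M : ℝ) (G : ℝ → ℂ) (hc : 0 < c) (hc1 : c ≤ 1) (hG : Continuous G) (hM : ∀ x, ‖G x‖ ≤ M) :
    Integrable (fun η : ℝ => ∫ x, rho x * ‖STF_I c x0 η G x‖ ^ 2) ∧
      ∫ η, (∫ x, rho x * ‖STF_I c x0 η G x‖ ^ 2) ≤ 20 * Real.pi * c * ∫ u, ‖G (x0 + u)‖ ^ 2 / (1 + u ^ 2) := by
  have hM0 : 0 ≤ M := (norm_nonneg _).trans (hM 0)
  have hIc := STF_Ic c x0 G hG
  have hrc := hR.ct
  have hG2 : ∀ y, ‖G y‖ ^ 2 ≤ M ^ 2 := fun y => pow_le_pow_left₀ (norm_nonneg _) (hM y) 2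
  have hpar : Continuous fun x : ℝ => ∫ s in Icc (-(c / 2)) (c / 2), ‖G (x0 + x - s)‖ ^ 2 := by
    refine continuous_parametric_integral_of_continuous (f := fun (x : ℝ) (s : ℝ) => ‖G (x0 + x - s)‖ ^ 2) ?_ isCompact_Icc
    unfold Function.uncurry
    fun_prop
  have i0 : Integrable (fun p : ℝ × ℝ => rho p.1 * ‖STF_I c x0 p.2 G p.1‖ ^ 2) (volume.prod volume) := by
    have hm : AEStronglyMeasurable (fun p : ℝ × ℝ => rho p.1 * ‖STF_I c x0 p.2 G p.1‖ ^ 2) (volume.prod volume) :=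
      Continuous.aestronglyMeasurable (by fun_prop)
    rw [integrable_prod_iff hm]
    refine ⟨Filter.Eventually.of_forall fun x => (STF_Ipl hP c x0 M G hG hM x).1.const_mul (rho x), ?_⟩
    have e1 : (fun x : ℝ => ∫ η, ‖rho x * ‖STF_I c x0 η G x‖ ^ 2‖) = fun x => rho x * (2 * Real.pi * ∫ s in Icc (-(c / 2)) (c / 2), ‖G (x0 + x - s)‖ ^ 2) := by
      funext x
      rw [← (STF_Ipl hP c x0 M G hG hM x).2, ← integral_const_mul]
      refine integral_congr_ae (Filter.Eventually.of_forall fun η => ?_)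
      show ‖rho x * ‖STF_I c x0 η G x‖ ^ 2‖ = rho x * ‖STF_I c x0 η G x‖ ^ 2
      rw [Real.norm_eq_abs, abs_of_nonneg (mul_nonneg (hR.nn x) (sq_nonneg _))]
    show Integrable (fun x : ℝ => ∫ η, ‖rho x * ‖STF_I c x0 η G x‖ ^ 2‖)
    rw [e1]
    refine Integrable.mono' (hR.ig.mul_const (2 * Real.pi * (M ^ 2 * c))) (Continuous.aestronglyMeasurable (by fun_prop)) (Filter.Eventually.of_forall fun x => ?_)
    have b1 : ∫ s in Icc (-(c / 2)) (c / 2), ‖G (x0 + x - s)‖ ^ 2 ≤ M ^ 2 * c := by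
      have b2 : ∫ s in Icc (-(c / 2)) (c / 2), ‖G (x0 + x - s)‖ ^ 2 ≤ ∫ _s in Icc (-(c / 2)) (c / 2), M ^ 2 := by
        refine setIntegral_mono ((Continuous.continuousOn (by fun_prop)).integrableOn_compact isCompact_Icc) (integrable_const _) fun s => hG2 _
      refine b2.trans (le_of_eq ?_)
      rw [integral_const]
      simp only [smul_eq_mul, measureReal_restrict_apply_univ, Real.volume_real_Icc]
      rw [max_eq_left (by linarith)]
      ring
    have b0 : 0 ≤ ∫ s in Icc (-(c / 2)) (c / 2), ‖G (x0 + x - s)‖ ^ 2 := integral_nonneg fun _ => sq_nonneg _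
    rw [Real.norm_eq_abs, abs_of_nonneg (mul_nonneg (hR.nn x) (mul_nonneg (by positivity) b0))]
    exact mul_le_mul_of_nonneg_left (mul_le_mul_of_nonneg_left b1 (by positivity)) (hR.nn x)
  refine ⟨i0.integral_prod_right, ?_⟩
  have e2 : ∫ η, (∫ x, rho x * ‖STF_I c x0 η G x‖ ^ 2) = ∫ x, ∫ η, rho x * ‖STF_I c x0 η G x‖ ^ 2 := (integral_integral_swap i0).symm
  have e3 : ∫ x, (∫ η, rho x * ‖STF_I c x0 η G x‖ ^ 2) = 2 * Real.pi * ∫ x, ∫ s in Icc (-(c / 2)) (c / 2), rho x * ‖G (x0 + x - s)‖ ^ 2 := by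
    rw [← integral_const_mul]
    refine integral_congr_ae (Filter.Eventually.of_forall fun x => ?_)
    show ∫ η, rho x * ‖STF_I c x0 η G x‖ ^ 2 = 2 * Real.pi * ∫ s in Icc (-(c / 2)) (c / 2), rho x * ‖G (x0 + x - s)‖ ^ 2
    rw [integral_const_mul, (STF_Ipl hP c x0 M G hG hM x).2, integral_const_mul]
    ring
  have i3 : Integrable (fun p : ℝ × ℝ => rho p.1 * ‖G (x0 + p.1 - p.2)‖ ^ 2) (volume.prod (volume.restrict (Icc (-(c / 2)) (c / 2)))) := by
    refine Integrable.mono' (hR.ig.mul_prod (integrable_const (M ^ 2))) (Continuous.aestronglyMeasurable (by fun_prop)) (Filter.Eventually.of_forall fun p => ?_)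
    rw [Real.norm_eq_abs, abs_of_nonneg (mul_nonneg (hR.nn _) (sq_nonneg _))]
    exact mul_le_mul_of_nonneg_left (hG2 _) (hR.nn _)
  have e4 : ∫ x, ∫ s in Icc (-(c / 2)) (c / 2), rho x * ‖G (x0 + x - s)‖ ^ 2 = ∫ s in Icc (-(c / 2)) (c / 2), ∫ x, rho x * ‖G (x0 + x - s)‖ ^ 2 := integral_integral_swap i3
  have iD : Integrable (fun u : ℝ => ‖G (x0 + u)‖ ^ 2 / (1 + u ^ 2)) := by
    refine Integrable.mono' (integrable_inv_one_add_sq.const_mul (M ^ 2)) (Continuous.aestronglyMeasurable ?_) (Filter.Eventually.of_forall fun u => ?_)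
    · exact Continuous.div (by fun_prop) (by fun_prop) fun u => by positivity
    · rw [Real.norm_eq_abs, abs_of_nonneg (by positivity), div_eq_mul_inv]
      exact mul_le_mul_of_nonneg_right (hG2 _) (by positivity)
  have b5 : ∀ s ∈ Icc (-(c / 2)) (c / 2), ∫ x, rho x * ‖G (x0 + x - s)‖ ^ 2 ≤ 10 * ∫ u, ‖G (x0 + u)‖ ^ 2 / (1 + u ^ 2) := by
    intro s hs
    have e5 : ∫ x, rho x * ‖G (x0 + x - s)‖ ^ 2 = ∫ u, rho (u + s) * ‖G (x0 + u)‖ ^ 2 := by
      rw [← integral_add_right_eq_self (fun x : ℝ => rho x * ‖G (x0 + x - s)‖ ^ 2) s]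
      refine integral_congr_ae (Filter.Eventually.of_forall fun u => ?_)
      show rho (u + s) * ‖G (x0 + (u + s) - s)‖ ^ 2 = rho (u + s) * ‖G (x0 + u)‖ ^ 2
      rw [show x0 + (u + s) - s = x0 + u by ring]
    rw [e5, ← integral_const_mul]
    refine integral_mono_of_nonneg (Filter.Eventually.of_forall fun u => mul_nonneg (hR.nn _) (sq_nonneg _)) (iD.const_mul 10) (Filter.Eventually.of_forall fun u => ?_)
    have h1 := STF_sq1 u s (abs_le.2 ⟨by linarith [hs.1], by linarith [hs.2]⟩)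
    have h2 : rho (u + s) ≤ 10 / (1 + u ^ 2) := by
      refine (hR.dc (u + s)).trans ?_
      rw [div_le_div_iff₀ (by positivity) (by positivity)]
      linarith
    calc rho (u + s) * ‖G (x0 + u)‖ ^ 2 ≤ 10 / (1 + u ^ 2) * ‖G (x0 + u)‖ ^ 2 := mul_le_mul_of_nonneg_right h2 (sq_nonneg _)
      _ = 10 * (‖G (x0 + u)‖ ^ 2 / (1 + u ^ 2)) := by ring
  have b6 : ∫ s in Icc (-(c / 2)) (c / 2), ∫ x, rho x * ‖G (x0 + x - s)‖ ^ 2 ≤ c * (10 * ∫ u, ‖G (x0 + u)‖ ^ 2 / (1 + u ^ 2)) := by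
    have b7 : ∫ s in Icc (-(c / 2)) (c / 2), ∫ x, rho x * ‖G (x0 + x - s)‖ ^ 2 ≤ ∫ _s in Icc (-(c / 2)) (c / 2), 10 * ∫ u, ‖G (x0 + u)‖ ^ 2 / (1 + u ^ 2) :=
      setIntegral_mono_on i3.integral_prod_right (integrable_const _) measurableSet_Icc b5
    refine b7.trans (le_of_eq ?_)
    rw [integral_const]
    simp only [smul_eq_mul, measureReal_restrict_apply_univ, Real.volume_real_Icc]
    rw [max_eq_left (by linarith)]
    ring
  rw [e2, e3, e4]
  have hpi := Real.pi_pos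
  calc 2 * Real.pi * ∫ s in Icc (-(c / 2)) (c / 2), ∫ x, rho x * ‖G (x0 + x - s)‖ ^ 2 ≤ 2 * Real.pi * (c * (10 * ∫ u, ‖G (x0 + u)‖ ^ 2 / (1 + u ^ 2))) :=
        mul_le_mul_of_nonneg_left b6 (by positivity)
    _ = 20 * Real.pi * c * ∫ u, ‖G (x0 + u)‖ ^ 2 / (1 + u ^ 2) := by ring

/-- the second upper bound -/
theorem STF_U2 (hP : PLR_stmt) (c x0 M : ℝ) (G : ℝ → ℂ) (hc : 0 < c) (hG : Continuous G) (hM : ∀ x, ‖G x‖ ≤ M) :
    Integrable (fun η : ℝ => ∫ x in Icc (-(c / 2)) (c / 2), ‖STF_I c x0 η G x‖ ^ 2) ∧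
      ∫ η, (∫ x in Icc (-(c / 2)) (c / 2), ‖STF_I c x0 η G x‖ ^ 2) ≤ 2 * Real.pi * c * ∫ u in Icc (-c) c, ‖G (x0 + u)‖ ^ 2 := by
  have hM0 : 0 ≤ M := (norm_nonneg _).trans (hM 0)
  have hIc := STF_Ic c x0 G hG
  have hG2 : ∀ y, ‖G y‖ ^ 2 ≤ M ^ 2 := fun y => pow_le_pow_left₀ (norm_nonneg _) (hM y) 2
  have hpar : Continuous fun x : ℝ => ∫ s in Icc (-(c / 2)) (c / 2), ‖G (x0 + x - s)‖ ^ 2 := by
    refine continuous_parametric_integral_of_continuous (f := fun (x : ℝ) (s : ℝ) => ‖G (x0 + x - s)‖ ^ 2) ?_ isCompact_Icc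
    unfold Function.uncurry
    fun_prop
  have i0 : Integrable (fun p : ℝ × ℝ => ‖STF_I c x0 p.2 G p.1‖ ^ 2) ((volume.restrict (Icc (-(c / 2)) (c / 2))).prod volume) := by
    have hm : AEStronglyMeasurable (fun p : ℝ × ℝ => ‖STF_I c x0 p.2 G p.1‖ ^ 2) ((volume.restrict (Icc (-(c / 2)) (c / 2))).prod volume) :=
      Continuous.aestronglyMeasurable (by fun_prop)
    rw [integrable_prod_iff hm]
    refine ⟨Filter.Eventually.of_forall fun x => (STF_Ipl hP c x0 M G hG hM x).1, ?_⟩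
    have e1 : (fun x : ℝ => ∫ η, ‖‖STF_I c x0 η G x‖ ^ 2‖) = fun x => 2 * Real.pi * ∫ s in Icc (-(c / 2)) (c / 2), ‖G (x0 + x - s)‖ ^ 2 := by
      funext x
      rw [← (STF_Ipl hP c x0 M G hG hM x).2]
      refine integral_congr_ae (Filter.Eventually.of_forall fun η => ?_)
      show ‖‖STF_I c x0 η G x‖ ^ 2‖ = ‖STF_I c x0 η G x‖ ^ 2
      rw [Real.norm_eq_abs, abs_of_nonneg (sq_nonneg _)]
    show Integrable (fun x : ℝ => ∫ η, ‖‖STF_I c x0 η G x‖ ^ 2‖) (volume.restrict (Icc (-(c / 2)) (c / 2)))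
    rw [e1]
    exact (Continuous.continuousOn (by fun_prop)).integrableOn_compact isCompact_Icc
  refine ⟨i0.integral_prod_right, ?_⟩
  have e2 : ∫ η, (∫ x in Icc (-(c / 2)) (c / 2), ‖STF_I c x0 η G x‖ ^ 2) = ∫ x in Icc (-(c / 2)) (c / 2), ∫ η, ‖STF_I c x0 η G x‖ ^ 2 := (integral_integral_swap i0).symm
  have e3 : ∫ x in Icc (-(c / 2)) (c / 2), (∫ η, ‖STF_I c x0 η G x‖ ^ 2) = 2 * Real.pi * ∫ x in Icc (-(c / 2)) (c / 2), ∫ s in Icc (-(c / 2)) (c / 2), ‖G (x0 + x - s)‖ ^ 2 := by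
    rw [← integral_const_mul]
    refine integral_congr_ae (Filter.Eventually.of_forall fun x => ?_)
    exact (STF_Ipl hP c x0 M G hG hM x).2
  have i3 : Integrable (fun p : ℝ × ℝ => ‖G (x0 + p.1 - p.2)‖ ^ 2) ((volume.restrict (Icc (-(c / 2)) (c / 2))).prod (volume.restrict (Icc (-(c / 2)) (c / 2)))) := by
    refine Integrable.mono' (integrable_const (M ^ 2)) (Continuous.aestronglyMeasurable (by fun_prop)) (Filter.Eventually.of_forall fun p => ?_)
    rw [Real.norm_eq_abs, abs_of_nonneg (sq_nonneg _)]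
    exact hG2 _
  have e4 : ∫ x in Icc (-(c / 2)) (c / 2), ∫ s in Icc (-(c / 2)) (c / 2), ‖G (x0 + x - s)‖ ^ 2 = ∫ s in Icc (-(c / 2)) (c / 2), ∫ x in Icc (-(c / 2)) (c / 2), ‖G (x0 + x - s)‖ ^ 2 := integral_integral_swap i3
  have iD : IntegrableOn (fun u : ℝ => ‖G (x0 + u)‖ ^ 2) (Icc (-c) c) := (Continuous.continuousOn (by fun_prop)).integrableOn_compact isCompact_Icc
  have b5 : ∀ s ∈ Icc (-(c / 2)) (c / 2), ∫ x in Icc (-(c / 2)) (c / 2), ‖G (x0 + x - s)‖ ^ 2 ≤ ∫ u in Icc (-c) c, ‖G (x0 + u)‖ ^ 2 := by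
    intro s hs
    rw [← integral_indicator measurableSet_Icc, ← integral_indicator measurableSet_Icc,
      ← integral_add_right_eq_self ((Icc (-(c / 2)) (c / 2)).indicator fun x : ℝ => ‖G (x0 + x - s)‖ ^ 2) s]
    refine integral_mono_of_nonneg (Filter.Eventually.of_forall fun u => indicator_nonneg (fun _ _ => sq_nonneg _) _) (iD.integrable_indicator measurableSet_Icc) (Filter.Eventually.of_forall fun u => ?_)
    show (Icc (-(c / 2)) (c / 2)).indicator (fun x : ℝ => ‖G (x0 + x - s)‖ ^ 2) (u + s) ≤ (Icc (-c) c).indicator (fun u => ‖G (x0 + u)‖ ^ 2) u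
    by_cases hu : u + s ∈ Icc (-(c / 2)) (c / 2)
    · have hu2 : u ∈ Icc (-c) c := ⟨by linarith [hu.1, hs.2], by linarith [hu.2, hs.1]⟩
      rw [indicator_of_mem hu, indicator_of_mem hu2, show x0 + (u + s) - s = x0 + u by ring]
    · rw [indicator_of_notMem hu]
      exact indicator_nonneg (fun _ _ => sq_nonneg _) _
  have b6 : ∫ s in Icc (-(c / 2)) (c / 2), ∫ x in Icc (-(c / 2)) (c / 2), ‖G (x0 + x - s)‖ ^ 2 ≤ c * ∫ u in Icc (-c) c, ‖G (x0 + u)‖ ^ 2 := by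
    have b7 : ∫ s in Icc (-(c / 2)) (c / 2), ∫ x in Icc (-(c / 2)) (c / 2), ‖G (x0 + x - s)‖ ^ 2 ≤ ∫ _s in Icc (-(c / 2)) (c / 2), ∫ u in Icc (-c) c, ‖G (x0 + u)‖ ^ 2 :=
      setIntegral_mono_on i3.integral_prod_right (integrable_const _) measurableSet_Icc b5
    refine b7.trans (le_of_eq ?_)
    rw [integral_const]
    simp only [smul_eq_mul, measureReal_restrict_apply_univ, Real.volume_real_Icc]
    rw [max_eq_left (by linarith)]
    ring
  rw [e2, e3, e4]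
  have hpi := Real.pi_pos
  calc 2 * Real.pi * ∫ s in Icc (-(c / 2)) (c / 2), ∫ x in Icc (-(c / 2)) (c / 2), ‖G (x0 + x - s)‖ ^ 2 ≤ 2 * Real.pi * (c * ∫ u in Icc (-c) c, ‖G (x0 + u)‖ ^ 2) :=
        mul_le_mul_of_nonneg_left b6 (by positivity)
    _ = 2 * Real.pi * c * ∫ u in Icc (-c) c, ‖G (x0 + u)‖ ^ 2 := by ring

theorem STF_proof (hR : RHO_stmt) (hP : PLR_stmt) : STF_stmt := by
  intro c hc hc1
  refine ⟨4000000 / c, ?_, ?_⟩
  · rw [le_div_iff₀ hc]
    linarith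
  intro x0 δ B M G hδ hB hG hM hyp
  have hM0 : 0 ≤ M := (norm_nonneg _).trans (hM 0)
  have hpi := Real.pi_pos
  have hrc := hR.ct
  have hIc := STF_Ic c x0 G hG
  -- the Fourier integral
  set g : ℝ → ℂ := fun v => G (x0 - v) * (STF_k c v : ℂ) with hg
  have hgn : ∀ v, ‖g v‖ = ‖G (x0 - v)‖ * STF_k c v := by
    intro v
    rw [hg]
    show ‖G (x0 - v) * (STF_k c v : ℂ)‖ = _
    rw [norm_mul, Complex.norm_real, Real.norm_eq_abs, abs_of_nonneg (STF_knn hR c v)]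
  have hgi : Integrable g := by
    have h1 : Integrable (fun v : ℝ => (STF_k c v : ℂ)) := (STF_kint hR c).ofReal
    exact h1.bdd_mul (c := M) (Continuous.aestronglyMeasurable (by fun_prop)) (Filter.Eventually.of_forall fun v => hM _)
  have hgb : ∀ v, ‖g v‖ ≤ M * c := by
    intro v
    rw [hgn]
    exact mul_le_mul (hM _) (STF_kle hR c v hc) (STF_knn hR c v) hM0
  obtain ⟨hVi, hVe⟩ := hP g (M * c) hgi hgb
  -- lower bound
  have hg2 : Integrable (fun v => ‖g v‖ ^ 2) := by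
    refine Integrable.mono' (hgi.norm.const_mul (M * c)) (hgi.aestronglyMeasurable.norm.pow 2) (Filter.Eventually.of_forall fun v => ?_)
    rw [Real.norm_eq_abs, abs_of_nonneg (sq_nonneg _), sq]
    exact mul_le_mul_of_nonneg_right (hgb v) (norm_nonneg _)
  have lo : (c / 100) ^ 2 * ∫ v in Icc (1 / 2 : ℝ) (5 / 2), ‖G (x0 - v)‖ ^ 2 ≤ ∫ v, ‖g v‖ ^ 2 := by
    have l1 : ∫ v in Icc (1 / 2 : ℝ) (5 / 2), ‖g v‖ ^ 2 ≤ ∫ v, ‖g v‖ ^ 2 := setIntegral_le_integral hg2 (Filter.Eventually.of_forall fun v => sq_nonneg _)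
    refine le_trans ?_ l1
    rw [← integral_const_mul]
    refine setIntegral_mono_on ((Continuous.continuousOn (by fun_prop)).integrableOn_compact isCompact_Icc) hg2.integrableOn measurableSet_Icc fun v hv => ?_
    rw [hgn, mul_pow, mul_comm]
    exact mul_le_mul_of_nonneg_left (pow_le_pow_left₀ (by positivity) (STF_klo hR c v hc hc1 hv) 2) (sq_nonneg _)
  -- upper bounds
  obtain ⟨iU1, hU1⟩ := STF_U1 hR hP c x0 M G hc hc1 hG hM
  obtain ⟨iU2, hU2⟩ := STF_U2 hP c x0 M G hc hG hM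
  have hqn : ∀ η x, ‖qm c x0 η G x‖ = rho x * ‖STF_I c x0 η G x‖ := by
    intro η x
    unfold qm STF_I
    rw [norm_mul, Complex.norm_real, Real.norm_eq_abs, abs_of_nonneg (hR.nn x)]
  have hIη : ∀ η : ℝ, Continuous fun x => STF_I c x0 η G x := fun η => hIc.comp (Continuous.prodMk_left η)
  have pt : ∀ η : ℝ, ‖∫ v, ee (η * v) * g v‖ ^ 2 ≤ 32 * δ ^ 2 * (∫ x, rho x * ‖STF_I c x0 η G x‖ ^ 2) + 2 * B ^ 2 * c * ∫ x in Icc (-(c / 2)) (c / 2), ‖STF_I c x0 η G x‖ ^ 2 := by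
    intro η
    have hIη' := hIη η
    have h1 := hyp η
    rw [STF_V hR c x0 η M G hG hM] at h1
    simp only [hqn] at h1
    have hb := STF_Ib c x0 η M G hc hM
    have j1 : Integrable (fun x => rho x * ‖STF_I c x0 η G x‖) := by
      refine Integrable.mono' (hR.ig.mul_const (M * c)) (Continuous.aestronglyMeasurable (by fun_prop)) (Filter.Eventually.of_forall fun x => ?_)
      rw [Real.norm_eq_abs, abs_of_nonneg (mul_nonneg (hR.nn x) (norm_nonneg _))]
      exact mul_le_mul_of_nonneg_left (hb x) (hR.nn x)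
    have j2 : Integrable (fun x => rho x * ‖STF_I c x0 η G x‖ ^ 2) := by
      refine Integrable.mono' (hR.ig.mul_const ((M * c) ^ 2)) (Continuous.aestronglyMeasurable (by fun_prop)) (Filter.Eventually.of_forall fun x => ?_)
      rw [Real.norm_eq_abs, abs_of_nonneg (mul_nonneg (hR.nn x) (sq_nonneg _))]
      exact mul_le_mul_of_nonneg_left (pow_le_pow_left₀ (norm_nonneg _) (hb x) 2) (hR.nn x)
    have c1 : (∫ x, rho x * ‖STF_I c x0 η G x‖) ^ 2 ≤ 16 * ∫ x, rho x * ‖STF_I c x0 η G x‖ ^ 2 :=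
      STF_CS volume rho (fun x => ‖STF_I c x0 η G x‖) 16 (by norm_num) hR.nn hR.ig hR.im j1 j2
    have j3 : IntegrableOn (fun x => ‖STF_I c x0 η G x‖) (Icc (-(c / 2)) (c / 2)) := (Continuous.continuousOn (by fun_prop)).integrableOn_compact isCompact_Icc
    have j4 : IntegrableOn (fun x => ‖STF_I c x0 η G x‖ ^ 2) (Icc (-(c / 2)) (c / 2)) := (Continuous.continuousOn (by fun_prop)).integrableOn_compact isCompact_Icc
    have c2 : (∫ x in Icc (-(c / 2)) (c / 2), ‖STF_I c x0 η G x‖) ^ 2 ≤ c * ∫ x in Icc (-(c / 2)) (c / 2), ‖STF_I c x0 η G x‖ ^ 2 := by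
      have h2 := STF_CS (volume.restrict (Icc (-(c / 2)) (c / 2))) (fun _ => 1) (fun x => ‖STF_I c x0 η G x‖) c hc (fun _ => zero_le_one) (integrable_const _) (by
        rw [integral_const]
        simp only [smul_eq_mul, mul_one, measureReal_restrict_apply_univ, Real.volume_real_Icc]
        rw [max_eq_left (by linarith)]
        linarith) (by simp only [one_mul]; exact j3) (by simp only [one_mul]; exact j4)
      simpa only [one_mul] using h2
    have c3 : ∫ x in Icc (-(c / 2)) (c / 2), rho x * ‖STF_I c x0 η G x‖ ≤ ∫ x in Icc (-(c / 2)) (c / 2), ‖STF_I c x0 η G x‖ := by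
      refine setIntegral_mono j1.integrableOn j3 fun x => ?_
      have := hR.le x
      nlinarith [norm_nonneg (STF_I c x0 η G x)]
    have n1 : 0 ≤ ∫ x, rho x * ‖STF_I c x0 η G x‖ := integral_nonneg fun x => mul_nonneg (hR.nn x) (norm_nonneg _)
    have n2 : 0 ≤ ∫ x in Icc (-(c / 2)) (c / 2), ‖STF_I c x0 η G x‖ := integral_nonneg fun x => norm_nonneg _
    set a1 := ∫ x, rho x * ‖STF_I c x0 η G x‖ with ha1
    set a2 := ∫ x in Icc (-(c / 2)) (c / 2), ‖STF_I c x0 η G x‖ with ha2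
    have h3 : ‖∫ v, ee (η * v) * g v‖ ≤ δ * a1 + B * a2 := h1.trans (by nlinarith [mul_le_mul_of_nonneg_left c3 hB])
    have h4 : ‖∫ v, ee (η * v) * g v‖ ^ 2 ≤ (δ * a1 + B * a2) ^ 2 := pow_le_pow_left₀ (norm_nonneg _) h3 2
    have h5 : (δ * a1 + B * a2) ^ 2 ≤ 2 * (δ * a1) ^ 2 + 2 * (B * a2) ^ 2 := by nlinarith [sq_nonneg (δ * a1 - B * a2)]
    have h6 : 2 * (δ * a1) ^ 2 ≤ 32 * δ ^ 2 * (∫ x, rho x * ‖STF_I c x0 η G x‖ ^ 2) := by
      have := mul_le_mul_of_nonneg_left c1 (by positivity : 0 ≤ 2 * δ ^ 2)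
      nlinarith [this]
    have h7 : 2 * (B * a2) ^ 2 ≤ 2 * B ^ 2 * c * ∫ x in Icc (-(c / 2)) (c / 2), ‖STF_I c x0 η G x‖ ^ 2 := by
      have := mul_le_mul_of_nonneg_left c2 (by positivity : 0 ≤ 2 * B ^ 2)
      nlinarith [this]
    linarith
  have up : ∫ η, ‖∫ v, ee (η * v) * g v‖ ^ 2 ≤ 32 * δ ^ 2 * (20 * Real.pi * c * ∫ u, ‖G (x0 + u)‖ ^ 2 / (1 + u ^ 2)) + 2 * B ^ 2 * c * (2 * Real.pi * c * ∫ u in Icc (-c) c, ‖G (x0 + u)‖ ^ 2) := by
    have h1 : ∫ η, ‖∫ v, ee (η * v) * g v‖ ^ 2 ≤ ∫ η, (32 * δ ^ 2 * (∫ x, rho x * ‖STF_I c x0 η G x‖ ^ 2) + 2 * B ^ 2 * c * ∫ x in Icc (-(c / 2)) (c / 2), ‖STF_I c x0 η G x‖ ^ 2) :=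
      integral_mono hVi ((iU1.const_mul _).add (iU2.const_mul _)) pt
    rw [integral_add (iU1.const_mul _) (iU2.const_mul _), integral_const_mul, integral_const_mul] at h1
    refine h1.trans (add_le_add (mul_le_mul_of_nonneg_left hU1 (by positivity)) (mul_le_mul_of_nonneg_left hU2 (by positivity)))
  rw [hVe] at up
  set X0 := ∫ v in Icc (1 / 2 : ℝ) (5 / 2), ‖G (x0 - v)‖ ^ 2 with hX0
  set X1 := ∫ u, ‖G (x0 + u)‖ ^ 2 / (1 + u ^ 2) with hX1
  set X2 := ∫ u in Icc (-c) c, ‖G (x0 + u)‖ ^ 2 with hX2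
  have n1 : 0 ≤ X1 := integral_nonneg fun u => by positivity
  have n2 : 0 ≤ X2 := integral_nonneg fun u => sq_nonneg _
  have f1 : 2 * Real.pi * ((c / 100) ^ 2 * X0) ≤ 32 * δ ^ 2 * (20 * Real.pi * c * X1) + 2 * B ^ 2 * c * (2 * Real.pi * c * X2) :=
    (mul_le_mul_of_nonneg_left lo (by positivity)).trans up
  have f2 : (c / 100) ^ 2 * X0 ≤ 320 * c * (δ ^ 2 * X1) + 2 * c ^ 2 * (B ^ 2 * X2) := by
    have h1 : 2 * Real.pi * ((c / 100) ^ 2 * X0) ≤ 2 * Real.pi * (320 * c * (δ ^ 2 * X1) + 2 * c ^ 2 * (B ^ 2 * X2)) := by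
      refine f1.trans (le_of_eq ?_)
      ring
    exact le_of_mul_le_mul_left h1 (by positivity)
  have f3 : c * X0 ≤ 3200000 * (δ ^ 2 * X1) + 20000 * c * (B ^ 2 * X2) := by
    have h1 : c * (c * X0) ≤ c * (3200000 * (δ ^ 2 * X1) + 20000 * c * (B ^ 2 * X2)) := by nlinarith [f2]
    exact le_of_mul_le_mul_left h1 hc
  have n3 : 0 ≤ δ ^ 2 * X1 := by positivity
  have n4 : 0 ≤ B ^ 2 * X2 := by positivity
  rw [div_mul_eq_mul_div, le_div_iff₀ hc]
  nlinarith [mul_le_mul_of_nonneg_right hc1 n4]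

end

end Pool.Agent.FS
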